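import Mathlib

namespace Pool.Agent.Work.MP_5ab958_co

/-- An edge-ordered graph on the vertex set `V`: a simple graph with a real labelling of pairs
that is injective on the edges (only the labels of edges matter). -/
structure EOGraph (V : Type) where
  G : SimpleGraph V
  l : Sym2 V → ℝ
  inj : Set.InjOn l G.edgeSet

/-- `H` contains `F`: an injective vertex map sends edges to edges and preserves the edge order. -/
def Contains {V W : Type} (H : EOGraph V) (F : EOGraph W) : Prop :=
  ∃ φ : W → V, Function.Injective φ ∧ (∀ a b, F.G.Adj a b → H.G.Adj (φ a) (φ b)) ∧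
    ∀ e ∈ F.G.edgeSet, ∀ e' ∈ F.G.edgeSet, F.l e < F.l e' → H.l (e.map φ) < H.l (e'.map φ)

/-- `H'` arises from `H` by adding the edge `uv` with a label smaller than every label of `H`. -/
def IsMinExtension {V : Type} (H : EOGraph V) (u v : V) (H' : EOGraph V) : Prop :=
  H'.G.edgeSet = insert s(u, v) H.G.edgeSet ∧
    ∀ e ∈ H.G.edgeSet, H'.l e = H.l e ∧ H'.l s(u, v) < H.l e

/-- `H` avoids `F`, and adding any non-edge with a new smallest label creates a copy of `F`. -/
def MinSaturated {V W : Type} (H : EOGraph V) (F : EOGraph W) : Prop :=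
  ¬ Contains H F ∧
    ∀ u v : V, u ≠ v → ¬ H.G.Adj u v → ∀ H' : EOGraph V, IsMinExtension H u v H' → Contains H' F

/-- The minimal edge of `F` is isolated: it shares no vertex with any other edge. -/
def IsolatedMinEdge {W : Type} (F : EOGraph W) : Prop :=
  ∃ a b : W, F.G.Adj a b ∧
    ∀ e ∈ F.G.edgeSet, e ≠ s(a, b) → F.l s(a, b) < F.l e ∧ a ∉ e ∧ b ∉ e

end Pool.Agent.Work.MP_5ab958_co
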