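import Mathlib
import Pool.Agent.Work.MP_5ab958_co.Defs

-- merged part: Pool.Agent.Work.MP_5ab958_co.Ring
section
/-!
A connected edge-ordered graph does not embed, with weakly monotone levels, in the ring formed
by three copies of itself with one edge removed.
-/

namespace Pool.Agent.Work.MP_5ab958_co

open SimpleGraph Function

section Mono

variable {α : Type*} (f : α → α) (key : α → ℝ)

theorem iter_mono_up (hm : ∀ x y, key x ≤ key y → key (f x) ≤ key (f y)) {x : α}
    (hx : key x ≤ key (f x)) : Monotone fun n => key (f^[n] x) := by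
  refine monotone_nat_of_le_succ fun n => ?_
  induction n with
  | zero => simpa using hx
  | succ n ih =>
    rw [iterate_succ_apply', iterate_succ_apply' f (n + 1)]
    exact hm _ _ ih

theorem iter_mono_down (hm : ∀ x y, key x ≤ key y → key (f x) ≤ key (f y)) {x : α}
    (hx : key (f x) ≤ key x) : Antitone fun n => key (f^[n] x) := by
  refine antitone_nat_of_succ_le fun n => ?_
  induction n with
  | zero => simpa using hx
  | succ n ih =>
    rw [iterate_succ_apply', iterate_succ_apply' f n]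
    rw [iterate_succ_apply'] at ih
    simpa [iterate_succ_apply'] using hm _ _ ih

theorem key_eq_of_periodic (hm : ∀ x y, key x ≤ key y → key (f x) ≤ key (f y)) {x : α} {k : ℕ}
    (hk : 0 < k) (hx : f^[k] x = x) : key (f x) = key x := by
  rcases le_total (key x) (key (f x)) with h | h
  · have := iter_mono_up f key hm h (show 1 ≤ k from hk)
    simp only [iterate_one, hx] at this
    exact le_antisymm this h
  · have := iter_mono_down f key hm h (show 1 ≤ k from hk)
    simp only [iterate_one, hx] at this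
    exact le_antisymm h this

theorem eventually_key_eq [Finite α] (hm : ∀ x y, key x ≤ key y → key (f x) ≤ key (f y))
    (x : α) : ∃ N, ∀ n, N ≤ n → key (f (f^[n] x)) = key (f^[n] x) := by
  obtain ⟨i, j, hij, he⟩ := Finite.exists_ne_map_eq_of_infinite (fun n : ℕ => f^[n] x)
  wlog hlt : i < j generalizing i j
  · exact this j i hij.symm he.symm (by omega)
  refine ⟨i, fun n hn => key_eq_of_periodic f key hm (k := j - i) (by omega) ?_⟩
  obtain ⟨m, rfl⟩ := Nat.exists_eq_add_of_le hn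
  rw [← iterate_add_apply]
  have h1 : j - i + (i + m) = m + j := by omega
  rw [h1, add_comm i m, iterate_add_apply, iterate_add_apply]
  exact congrArg _ he.symm

theorem key_eq_of_injOn [Finite α] (hm : ∀ x y, key x ≤ key y → key (f x) ≤ key (f y))
    (S : Set α) (hS : Set.MapsTo f S S) (hinj : Set.InjOn f S) {x : α} (hx : x ∈ S) :
    key (f x) = key x := by
  let g : S → S := hS.restrict f S S
  have hg : Injective g := fun a b hab =>
    Subtype.ext (hinj a.2 b.2 (congrArg Subtype.val hab))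
  obtain ⟨k, hk, hper⟩ := (hg.mem_periodicPts ⟨x, hx⟩)
  refine key_eq_of_periodic f key hm hk ?_
  have h1 : ∀ n (y : S), (g^[n] y).1 = f^[n] y.1 := by
    intro n
    induction n with
    | zero => intro y; rfl
    | succ n ih => intro y; rw [iterate_succ_apply, iterate_succ_apply, ih]; rfl
  have := congrArg Subtype.val hper.eq
  rwa [h1] at this

end Mono

instance finite_dart {W : Type*} [Finite W] (Γ : SimpleGraph W) : Finite Γ.Dart :=
  Finite.of_injective _ Dart.toProd_injective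

/-- The data of a weakly monotone embedding in the ring. -/
structure Setup (W V : Type) where
  Γ : SimpleGraph W
  conn : Γ.Preconnected
  l : Sym2 W → ℝ
  linj : Set.InjOn l Γ.edgeSet
  a : W
  b : W
  hab : Γ.Adj a b
  ι : ZMod 3 → W → V
  A1 : ∀ s, Injective (ι s)
  A2 : ∀ s s' p p', s ≠ s' → ι s p = ι s' p' →
    (p = a ∧ p' = b ∧ s = s' + 1) ∨ (p = b ∧ p' = a ∧ s' = s + 1)
  A3 : ∀ s, ι s b = ι (s + 1) a
  φ : W → V
  φinj : Injective φ
  Λ : Γ.Dart → Γ.Dart
  τ : Γ.Dart → ZMod 3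
  h1 : ∀ d, φ d.fst = ι (τ d) (Λ d).fst
  h2 : ∀ d, φ d.snd = ι (τ d) (Λ d).snd
  hne : ∀ d, (Λ d).edge ≠ s(a, b)
  mono : ∀ d d', l d.edge ≤ l d'.edge → l (Λ d).edge ≤ l (Λ d').edge

namespace Setup

variable {W V : Type} (S : Setup W V)

/-- Exchange the roles of the two ends of the special edge. -/
def swap : Setup W V where
  Γ := S.Γ
  conn := S.conn
  l := S.l
  linj := S.linj
  a := S.b
  b := S.a
  hab := S.hab.symm
  ι := fun s => S.ι (-s)
  A1 := fun s => S.A1 _
  A2 := by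
    intro s s' p p' hs h
    rcases S.A2 (-s) (-s') p p' (fun h' => hs (neg_injective h')) h with
      ⟨h1, h2, h3⟩ | ⟨h1, h2, h3⟩
    · right; exact ⟨h1, h2, by linear_combination h3⟩
    · left; exact ⟨h1, h2, by linear_combination h3⟩
  A3 := by
    intro s
    have := S.A3 (-(s + 1))
    rw [this]
    congr 1
    ring
  φ := S.φ
  φinj := S.φinj
  Λ := S.Λ
  τ := fun d => -S.τ d
  h1 := fun d => by simpa using S.h1 d
  h2 := fun d => by simpa using S.h2 d
  hne := fun d => by rw [Sym2.eq_swap]; exact S.hne d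
  mono := S.mono

/-- The special dart. -/
def d0 : S.Γ.Dart := ⟨(S.a, S.b), S.hab⟩

theorem mem_ab {s s' : ZMod 3} {p p' : W} (hs : s ≠ s') (h : S.ι s p = S.ι s' p') :
    p = S.a ∨ p = S.b := by
  rcases S.A2 s s' p p' hs h with h | h
  · exact Or.inl h.1
  · exact Or.inr h.1

theorem eq_of_inner {s s' : ZMod 3} {p p' : W} (ha : p ≠ S.a) (hb : p ≠ S.b)
    (h : S.ι s p = S.ι s' p') : s = s' ∧ p = p' := by
  by_cases hs : s = s'
  · subst hs; exact ⟨rfl, S.A1 _ h⟩
  · rcases S.mem_ab hs h with h | h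
    · exact absurd h ha
    · exact absurd h hb

theorem edge_ab {d : S.Γ.Dart} (h1 : d.fst = S.a ∨ d.fst = S.b) (h2 : d.snd = S.a ∨ d.snd = S.b) :
    d.edge = s(S.a, S.b) := by
  have hne := d.fst_ne_snd
  unfold Dart.edge
  rcases h1 with h1 | h1 <;> rcases h2 with h2 | h2
  · exact absurd (h1.trans h2.symm) hne
  · rw [h1, h2]
  · rw [h1, h2, Sym2.eq_swap]
  · exact absurd (h1.trans h2.symm) hne

theorem uniq {d e : S.Γ.Dart} {s : ZMod 3} (h1 : S.φ d.fst = S.ι s e.fst)
    (h2 : S.φ d.snd = S.ι s e.snd) : S.τ d = s ∧ S.Λ d = e := by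
  have e1 := (S.h1 d).symm.trans h1
  have e2 := (S.h2 d).symm.trans h2
  by_cases hs : S.τ d = s
  · rw [hs] at e1 e2
    exact ⟨hs, Dart.ext _ _ (Prod.ext (S.A1 _ e1) (S.A1 _ e2))⟩
  · exact absurd (S.edge_ab (S.mem_ab hs e1) (S.mem_ab hs e2)) (S.hne d)

theorem Λ_symm (d : S.Γ.Dart) : S.Λ d.symm = (S.Λ d).symm :=
  (S.uniq (d := d.symm) (e := (S.Λ d).symm) (S.h2 d) (S.h1 d)).2

theorem iter_symm (n : ℕ) (d : S.Γ.Dart) : S.Λ^[n] d.symm = (S.Λ^[n] d).symm := by
  induction n with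
  | zero => rfl
  | succ n ih => rw [iterate_succ_apply', iterate_succ_apply', ih, Λ_symm]

theorem inj_of_τ {d d' : S.Γ.Dart} (hτ : S.τ d = S.τ d') (h : S.Λ d = S.Λ d') : d = d' := by
  refine Dart.ext _ _ (Prod.ext (S.φinj ?_) (S.φinj ?_))
  · rw [S.h1, S.h1, hτ, h]
  · rw [S.h2, S.h2, hτ, h]

theorem edge_eq_of_key {d d' : S.Γ.Dart} (h : S.l d.edge = S.l d'.edge) : d.edge = d'.edge :=
  S.linj d.edge_mem d'.edge_mem h

theorem not_both {t : ZMod 3} (ha : S.φ S.a = S.ι t S.a) (hb : S.φ S.b = S.ι t S.b) : False := by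
  have := (S.uniq (d := S.d0) (e := S.d0) ha hb).2
  have h := S.hne S.d0
  rw [this] at h
  exact h rfl

/-- Fixed inner vertices have fixed neighbours. -/
theorem propagate [Finite W] {u : W} {t : ZMod 3} (ha : u ≠ S.a) (hb : u ≠ S.b)
    (hu : S.φ u = S.ι t u) {v : W} (huv : S.Γ.Adj u v) : S.φ v = S.ι t v := by
  let D : Set S.Γ.Dart := {d | d.fst = u}
  have hD : ∀ d ∈ D, S.τ d = t ∧ (S.Λ d).fst = u := by
    intro d hd
    have h1 := S.h1 d
    rw [show d.fst = u from hd, hu] at h1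
    have := S.eq_of_inner ha hb h1
    exact ⟨this.1.symm, this.2.symm⟩
  have hmap : Set.MapsTo S.Λ D D := fun d hd => (hD d hd).2
  have hinj : Set.InjOn S.Λ D := fun d hd d' hd' h =>
    S.inj_of_τ ((hD d hd).1.trans (hD d' hd').1.symm) h
  let d : S.Γ.Dart := ⟨(u, v), huv⟩
  have hd : d ∈ D := rfl
  have hkey := key_eq_of_injOn S.Λ (fun d => S.l d.edge) S.mono D hmap hinj hd
  have he := S.edge_eq_of_key hkey
  rcases (dart_edge_eq_iff _ _).1 he with h | h
  · have := S.h2 d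
    rw [h, (hD d hd).1] at this
    exact this
  · have := (hD d hd).2
    rw [h] at this
    exact absurd this huv.ne.symm

/-- Walks avoiding both ends of the special edge. -/
def Rab : W → W → Prop :=
  Relation.ReflTransGen fun x y => S.Γ.Adj x y ∧ y ≠ S.a ∧ y ≠ S.b

theorem fixed_of_Rab [Finite W] {u : W} {t : ZMod 3} (ha : u ≠ S.a) (hb : u ≠ S.b)
    (hu : S.φ u = S.ι t u) {v : W} (h : S.Rab u v) : v ≠ S.a ∧ v ≠ S.b ∧ S.φ v = S.ι t v := by
  induction h with
  | refl => exact ⟨ha, hb, hu⟩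
  | tail _ h2 ih => exact ⟨h2.2.1, h2.2.2, S.propagate ih.1 ih.2.1 ih.2.2 h2.1⟩

theorem touch {r : W → W → Prop} (hr : ∀ x y, r x y → S.Γ.Adj x y) {u z : W}
    (h : Relation.ReflTransGen r u z) :
    S.Rab u z ∨ ∃ v z', S.Rab u v ∧ (z' = S.a ∨ z' = S.b) ∧ r v z' := by
  induction h with
  | refl => exact Or.inl Relation.ReflTransGen.refl
  | @tail x y _ h2 ih =>
    rcases ih with ih | ih
    · by_cases hy : y = S.a ∨ y = S.b
      · exact Or.inr ⟨x, y, ih, hy, h2⟩
      · push Not at hy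
        exact Or.inl (ih.tail ⟨hr _ _ h2, hy.1, hy.2⟩)
    · exact Or.inr ih

/-- Walks avoiding the vertex `p`. -/
def Av (p : W) : W → W → Prop :=
  Relation.ReflTransGen fun x y => S.Γ.Adj x y ∧ x ≠ p ∧ y ≠ p

theorem Av.symm {S : Setup W V} {p x y : W} (h : S.Av p x y) : S.Av p y x := by
  induction h with
  | refl => exact Relation.ReflTransGen.refl
  | tail _ h2 ih => exact Relation.ReflTransGen.head ⟨h2.1.symm, h2.2.2, h2.2.1⟩ ih

theorem Av.trans {S : Setup W V} {p x y z : W} (h : S.Av p x y) (h' : S.Av p y z) : S.Av p x z :=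
  Relation.ReflTransGen.trans h h'

theorem Av.refl (p x : W) : S.Av p x x := Relation.ReflTransGen.refl

theorem Av.of_adj {S : Setup W V} {p x y : W} (h : S.Γ.Adj x y) (hx : x ≠ p) (hy : y ≠ p) :
    S.Av p x y := Relation.ReflTransGen.single ⟨h, hx, hy⟩

theorem Av.ne {S : Setup W V} {p x y : W} (h : S.Av p x y) (hx : x ≠ p) : y ≠ p := by
  induction h with
  | refl => exact hx
  | tail _ h2 _ => exact h2.2.2

open Classical in
/-- An end of the dart other than `p`. -/
noncomputable def rep (p : W) (d : S.Γ.Dart) : W := if d.fst = p then d.snd else d.fst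

theorem rep_ne (p : W) (d : S.Γ.Dart) : S.rep p d ≠ p := by
  unfold rep
  split_ifs with h
  · rw [← h]; exact d.snd_ne_fst
  · exact h

theorem rep_mem (p : W) (d : S.Γ.Dart) : S.rep p d = d.fst ∨ S.rep p d = d.snd := by
  unfold rep
  split_ifs <;> simp

theorem av_rep {p u : W} {d : S.Γ.Dart} (hu : u = d.fst ∨ u = d.snd) (hp : u ≠ p) :
    S.Av p (S.rep p d) u := by
  have hne := S.rep_ne p d
  rcases S.rep_mem p d with h | h <;> rcases hu with hu | hu
  · rw [h, hu]; exact Av.refl S _ _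
  · rw [h] at hne ⊢; rw [hu] at hp ⊢; exact Av.of_adj d.adj hne hp
  · rw [h] at hne ⊢; rw [hu] at hp ⊢; exact Av.of_adj d.adj.symm hne hp
  · rw [h, hu]; exact Av.refl S _ _

/-- No single vertex separates the two darts. -/
def Blk (d d' : S.Γ.Dart) : Prop := ∀ p, S.Av p (S.rep p d) (S.rep p d')

theorem Blk.symm {S : Setup W V} {d d' : S.Γ.Dart} (h : S.Blk d d') : S.Blk d' d :=
  fun p => (h p).symm

theorem Blk.trans {S : Setup W V} {d d' d'' : S.Γ.Dart} (h : S.Blk d d') (h' : S.Blk d' d'') :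
    S.Blk d d'' := fun p => (h p).trans (h' p)

theorem blk_symm_dart (d : S.Γ.Dart) : S.Blk d d.symm := fun p =>
  S.av_rep ((S.rep_mem p d.symm).symm) (S.rep_ne p _)

theorem av_ab {p x y : W} (hx : x = S.a ∨ x = S.b) (hy : y = S.a ∨ y = S.b) (hxp : x ≠ p)
    (hyp : y ≠ p) : S.Av p x y := by
  rcases hx with rfl | rfl <;> rcases hy with rfl | rfl
  · exact Av.refl S _ _
  · exact Av.of_adj S.hab hxp hyp
  · exact Av.of_adj S.hab.symm hxp hyp
  · exact Av.refl S _ _

theorem blk_half {d d' : S.Γ.Dart} (h : S.Blk d d') (p c : W) (hc : c = S.a ∨ c = S.b)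
    (hcp : c ≠ p) :
    (S.τ d = S.τ d' ∧ S.Av p (S.rep p (S.Λ d)) (S.rep p (S.Λ d'))) ∨
      (S.τ d ≠ S.τ d' ∧ S.Av p (S.rep p (S.Λ d)) c) := by
  classical
  set s := S.τ d with hs
  let r : W → W := fun v => if h : ∃ u, S.φ v = S.ι s u then h.choose else c
  have hr : ∀ v u, S.φ v = S.ι s u → r v = u := by
    intro v u hv
    have hex : ∃ u, S.φ v = S.ι s u := ⟨u, hv⟩
    simp only [r, dif_pos hex]
    exact S.A1 s (hex.choose_spec.symm.trans hv)
  have hr' : ∀ v s' q, s' ≠ s → S.φ v = S.ι s' q → S.φ v ≠ S.ι s p →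
      (r v = S.a ∨ r v = S.b) ∧ r v ≠ p := by
    intro v s' q hs' hv hz
    by_cases hex : ∃ u, S.φ v = S.ι s u
    · obtain ⟨u, hu⟩ := hex
      rw [hr v u hu]
      refine ⟨S.mem_ab hs'.symm (hu.symm.trans hv), ?_⟩
      rintro rfl
      exact hz hu
    · simp only [r, dif_neg hex]
      exact ⟨hc, hcp⟩
  obtain ⟨p1, hp1⟩ : ∃ p1, ∀ v, v ≠ p1 → S.φ v ≠ S.ι s p := by
    by_cases hex : ∃ p1, S.φ p1 = S.ι s p
    · obtain ⟨p1, h1⟩ := hex
      exact ⟨p1, fun v hv he => hv (S.φinj (he.trans h1.symm))⟩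
    · push Not at hex
      exact ⟨p, fun v _ => hex v⟩
  have hstep : ∀ v w, S.Γ.Adj v w → v ≠ p1 → w ≠ p1 → S.Av p (r v) (r w) := by
    intro v w hvw hv hw
    let e : S.Γ.Dart := ⟨(v, w), hvw⟩
    have e1 : S.φ v = S.ι (S.τ e) (S.Λ e).fst := S.h1 e
    have e2 : S.φ w = S.ι (S.τ e) (S.Λ e).snd := S.h2 e
    by_cases hes : S.τ e = s
    · rw [hes] at e1 e2
      rw [hr v _ e1, hr w _ e2]
      refine Av.of_adj (S.Λ e).adj ?_ ?_
      · intro h0; exact hp1 v hv (by rw [e1, h0])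
      · intro h0; exact hp1 w hw (by rw [e2, h0])
    · have a1 := hr' v _ _ hes e1 (hp1 v hv)
      have a2 := hr' w _ _ hes e2 (hp1 w hw)
      exact S.av_ab a1.1 a2.1 a1.2 a2.2
  have hwalk : ∀ v w, S.Av p1 v w → S.Av p (r v) (r w) := by
    intro v w hvw
    induction hvw with
    | refl => exact Av.refl S _ _
    | tail _ h2 ih => exact ih.trans (hstep _ _ h2.1 h2.2.1 h2.2.2)
  have hend : ∀ e : S.Γ.Dart, S.τ e = s → S.Av p (S.rep p (S.Λ e)) (r (S.rep p1 e)) := by
    intro e he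
    have hz := hp1 _ (S.rep_ne p1 e)
    rcases S.rep_mem p1 e with h0 | h0
    · have e1 := S.h1 e
      rw [he, ← h0] at e1
      rw [hr _ _ e1]
      exact S.av_rep (Or.inl rfl) (fun h3 => hz (by rw [e1, h3]))
    · have e1 := S.h2 e
      rw [he, ← h0] at e1
      rw [hr _ _ e1]
      exact S.av_rep (Or.inr rfl) (fun h3 => hz (by rw [e1, h3]))
  have hmain := (hend d rfl).trans (hwalk _ _ (h p1))
  by_cases hτ : S.τ d' = s
  · exact Or.inl ⟨hτ.symm, hmain.trans (hend d' hτ).symm⟩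
  · refine Or.inr ⟨fun h0 => hτ h0.symm, hmain.trans ?_⟩
    have hz := hp1 _ (S.rep_ne p1 d')
    have : (r (S.rep p1 d') = S.a ∨ r (S.rep p1 d') = S.b) ∧ r (S.rep p1 d') ≠ p := by
      rcases S.rep_mem p1 d' with h0 | h0
      · exact hr' _ _ _ hτ (by rw [h0]; exact S.h1 d') hz
      · exact hr' _ _ _ hτ (by rw [h0]; exact S.h2 d') hz
    exact S.av_ab this.1 hc this.2 hcp

theorem Blk.map {S : Setup W V} {d d' : S.Γ.Dart} (h : S.Blk d d') : S.Blk (S.Λ d) (S.Λ d') := by
  intro p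
  obtain ⟨c, hc, hcp⟩ : ∃ c, (c = S.a ∨ c = S.b) ∧ c ≠ p := by
    by_cases hp : S.a = p
    · exact ⟨S.b, Or.inr rfl, by rw [← hp]; exact S.hab.ne.symm⟩
    · exact ⟨S.a, Or.inl rfl, hp⟩
  rcases S.blk_half h p c hc hcp with h1 | h1
  · exact h1.2
  · rcases S.blk_half h.symm p c hc hcp with h2 | h2
    · exact absurd h2.1.symm h1.1
    · exact h1.2.trans h2.2.symm

theorem Blk.iter {S : Setup W V} {d d' : S.Γ.Dart} (h : S.Blk d d') (n : ℕ) :
    S.Blk (S.Λ^[n] d) (S.Λ^[n] d') := by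
  induction n with
  | zero => exact h
  | succ n ih => rw [iterate_succ_apply', iterate_succ_apply']; exact ih.map

theorem blk_of_av_a {d : S.Γ.Dart} (h1 : d.fst = S.a) (h2 : S.Av S.a d.snd S.b) :
    S.Blk d S.d0 := by
  intro p
  by_cases hp : S.a = p
  · subst hp
    have hs : d.snd ≠ S.a := by rw [← h1]; exact d.snd_ne_fst
    exact ((S.av_rep (Or.inr rfl) hs).trans h2).trans
      (S.av_rep (d := S.d0) (Or.inr rfl) S.hab.ne.symm).symm
  · exact (S.av_rep (Or.inl h1.symm) hp).trans (S.av_rep (d := S.d0) (Or.inl rfl) hp).symm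

theorem blk_of_av_b {d : S.Γ.Dart} (h1 : d.fst = S.b) (h2 : S.Av S.b d.snd S.a) :
    S.Blk d S.d0 := by
  intro p
  by_cases hp : S.b = p
  · subst hp
    have hs : d.snd ≠ S.b := by rw [← h1]; exact d.snd_ne_fst
    exact ((S.av_rep (Or.inr rfl) hs).trans h2).trans
      (S.av_rep (d := S.d0) (Or.inl rfl) S.hab.ne).symm
  · exact (S.av_rep (Or.inl h1.symm) hp).trans (S.av_rep (d := S.d0) (Or.inr rfl) hp).symm

/-- A branch at a vertex sent to the junction is sent into one branch of one copy. -/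
theorem branch_card [Finite W] {z c c' : W} {s : ZMod 3} (hcc : (c = S.a ∧ c' = S.b) ∨
    (c = S.b ∧ c' = S.a)) (hz : S.φ z = S.ι s c) {r q : W} (hr : S.φ r = S.ι s q) (hq : q ≠ c)
    (hnot : ¬ S.Av c q c') :
    {v | S.Av z r v}.ncard ≤ {v | S.Av c q v}.ncard := by
  have key : ∀ v, S.Av z r v → ∃ v', S.Av c q v' ∧ S.φ v = S.ι s v' := by
    intro v hv
    induction hv with
    | refl => exact ⟨q, Av.refl S _ _, hr⟩
    | @tail x y _ h2 ih =>
      obtain ⟨x', hx', hx⟩ := ih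
      have hxc : x' ≠ c := hx'.ne hq
      have hxc' : x' ≠ c' := by rintro rfl; exact hnot hx'
      have hxa : x' ≠ S.a := by
        rcases hcc with h | h
        · rw [← h.1]; exact hxc
        · rw [← h.2]; exact hxc'
      have hxb : x' ≠ S.b := by
        rcases hcc with h | h
        · rw [← h.2]; exact hxc'
        · rw [← h.1]; exact hxc
      let e : S.Γ.Dart := ⟨(x, y), h2.1⟩
      have e1 : S.φ x = S.ι (S.τ e) (S.Λ e).fst := S.h1 e
      have e2 : S.φ y = S.ι (S.τ e) (S.Λ e).snd := S.h2 e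
      have := S.eq_of_inner hxa hxb (hx.symm.trans e1)
      rw [← this.1] at e2
      refine ⟨(S.Λ e).snd, hx'.trans (Av.of_adj ?_ hxc ?_), e2⟩
      · rw [this.2]; exact (S.Λ e).adj
      · intro h0
        rw [h0, ← hz] at e2
        exact h2.2.2 (S.φinj e2)
  choose! g hg hg' using key
  refine Set.ncard_le_ncard_of_injOn g (fun v hv => hg v hv) ?_ (Set.toFinite _)
  intro v hv w hw h
  apply S.φinj
  rw [hg' v hv, hg' w hw, h]

theorem pendant [Finite W] {t : ZMod 3} (ha : S.φ S.a = S.ι t S.a) {N : ℕ}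
    (hfix : S.Λ (S.Λ^[N] S.d0) = S.Λ^[N] S.d0) (hnot : ¬ S.Blk (S.Λ^[N] S.d0) S.d0) : False := by
  have hconst : ∀ m, S.Λ^[N + m] S.d0 = S.Λ^[N] S.d0 := by
    intro m
    induction m with
    | zero => rfl
    | succ m ih => rw [← add_assoc, iterate_succ_apply', ih, hfix]
  have hnb : ∀ k, ¬ S.Blk (S.Λ^[k + 1] S.d0) S.d0 := by
    intro k hk
    have hmul : ∀ n, S.Blk (S.Λ^[n * (k + 1)] S.d0) S.d0 := by
      intro n
      induction n with
      | zero => intro p; simpa using Av.refl S _ _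
      | succ n ih =>
        have := hk.iter (n * (k + 1))
        rw [← iterate_add_apply] at this
        have h2 : (n + 1) * (k + 1) = n * (k + 1) + (k + 1) := by ring
        rw [h2]
        exact this.trans ih
    have h3 := hmul N
    have h4 : N * (k + 1) = N + N * k := by ring
    rw [h4, hconst] at h3
    exact hnot h3
  have hstep : ∀ d : S.Γ.Dart, d.fst = S.a →
      {v | S.Av S.a S.b v}.ncard ≤ {v | S.Av S.a d.snd v}.ncard → ¬ S.Blk (S.Λ d) S.d0 →
      S.τ d = t ∧ (S.Λ d).fst = S.a ∧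
        {v | S.Av S.a S.b v}.ncard ≤ {v | S.Av S.a (S.Λ d).snd v}.ncard := by
    intro d hd hcard hnb
    have e1 := S.h1 d
    have e2 := S.h2 d
    rw [hd] at e1
    by_cases hτ : S.τ d = t
    · have hp : (S.Λ d).fst = S.a := by
        rw [hτ, ha] at e1
        exact (S.A1 _ e1).symm
      refine ⟨hτ, hp, hcard.trans ?_⟩
      rw [hp] at e1
      refine S.branch_card (Or.inl ⟨rfl, rfl⟩) e1 e2 ?_ (fun h => hnb (S.blk_of_av_a hp h))
      rw [← hp]; exact (S.Λ d).snd_ne_fst
    · exfalso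
      have hp : (S.Λ d).fst = S.b := by
        rcases S.A2 _ _ _ _ hτ (e1.symm.trans ha) with h | h
        · exact absurd h.2.1 S.hab.ne
        · exact h.1
      rw [hp] at e1
      have hq : (S.Λ d).snd ≠ S.b := by rw [← hp]; exact (S.Λ d).snd_ne_fst
      have hna : ¬ S.Av S.b (S.Λ d).snd S.a := fun h => hnb (S.blk_of_av_b hp h)
      have h1 := S.branch_card (Or.inr ⟨rfl, rfl⟩) e1 e2 hq hna
      have hsub : {v | S.Av S.b (S.Λ d).snd v} ⊂ {v | S.Av S.a S.b v} := by
        refine ⟨?_, ?_⟩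
        · intro v hv
          change S.Av S.b (S.Λ d).snd v at hv
          change S.Av S.a S.b v
          induction hv with
          | refl =>
            refine Av.of_adj (by rw [← hp]; exact (S.Λ d).adj) S.hab.ne.symm ?_
            intro h0
            exact hna (by rw [h0]; exact Av.refl S _ _)
          | @tail x y hx h2 ih =>
            refine ih.trans (Av.of_adj h2.1 ?_ ?_)
            · rintro rfl; exact hna hx
            · rintro rfl; exact hna (Relation.ReflTransGen.tail hx h2)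
        · intro hsub
          have : S.Av S.b (S.Λ d).snd S.b := hsub (Av.refl S _ _)
          exact this.ne hq rfl
      have := Set.ncard_lt_ncard hsub (Set.toFinite _)
      omega
  have hall : ∀ k, (S.Λ^[k] S.d0).fst = S.a ∧
      {v | S.Av S.a S.b v}.ncard ≤ {v | S.Av S.a (S.Λ^[k] S.d0).snd v}.ncard := by
    intro k
    induction k with
    | zero => exact ⟨rfl, le_rfl⟩
    | succ k ih =>
      have := hstep _ ih.1 ih.2 (by rw [← iterate_succ_apply' S.Λ]; exact hnb k)
      rw [iterate_succ_apply']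
      exact this.2
  have hτ : ∀ k, S.τ (S.Λ^[k] S.d0) = t := fun k =>
    (hstep _ (hall k).1 (hall k).2 (by rw [← iterate_succ_apply' S.Λ]; exact hnb k)).1
  have hback : ∀ k, S.Λ (S.Λ^[k] S.d0) = S.Λ^[k] S.d0 → S.Λ S.d0 = S.d0 := by
    intro k
    induction k with
    | zero => exact id
    | succ k ih =>
      intro h
      apply ih
      have h1 := S.inj_of_τ ((hτ (k + 1)).trans (hτ k).symm)
        (by rw [h, iterate_succ_apply'])
      rw [iterate_succ_apply'] at h1
      exact h1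
  have := S.hne S.d0
  rw [hback N hfix] at this
  exact this rfl

/-- A fixed dart in the orbit of the special dart is impossible. -/
theorem no_fixed [Finite W] {N : ℕ} (hfix : S.Λ (S.Λ^[N] S.d0) = S.Λ^[N] S.d0) : False := by
  set D := S.Λ^[N] S.d0 with hD
  have hne : D.edge ≠ s(S.a, S.b) := by rw [← hfix]; exact S.hne _
  obtain ⟨u, hu, hua, hub⟩ : ∃ u, (u = D.fst ∨ u = D.snd) ∧ u ≠ S.a ∧ u ≠ S.b := by
    by_contra hcon
    push Not at hcon
    apply hne
    apply S.edge_ab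
    · by_cases h : D.fst = S.a
      · exact Or.inl h
      · exact Or.inr (hcon _ (Or.inl rfl) h)
    · by_cases h : D.snd = S.a
      · exact Or.inl h
      · exact Or.inr (hcon _ (Or.inr rfl) h)
  have hφu : S.φ u = S.ι (S.τ D) u := by
    rcases hu with rfl | rfl
    · have := S.h1 D; rwa [hfix] at this
    · have := S.h2 D; rwa [hfix] at this
  have htouch : ∀ v z, S.Rab u v → S.Γ.Adj v z → S.φ z = S.ι (S.τ D) z := by
    intro v z hv hz
    have := S.fixed_of_Rab hua hub hφu hv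
    exact S.propagate this.1 this.2.1 this.2.2 hz
  have hreach : Relation.ReflTransGen S.Γ.Adj u S.a :=
    (reachable_iff_reflTransGen u S.a).1 (S.conn u S.a)
  have hab' : S.φ S.a = S.ι (S.τ D) S.a ∨ S.φ S.b = S.ι (S.τ D) S.b := by
    rcases S.touch (fun _ _ h => h) hreach with h | ⟨v, z, hv, hz, hvz⟩
    · exact absurd rfl (S.fixed_of_Rab hua hub hφu h).1
    · rcases hz with rfl | rfl
      · exact Or.inl (htouch v _ hv hvz)
      · exact Or.inr (htouch v _ hv hvz)
  rcases hab' with ha | hb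
  · refine S.pendant ha hfix fun hblk => ?_
    have h1 : S.Av S.a u S.b := ((S.av_rep hu hua).symm.trans (hblk S.a)).trans
      (S.av_rep (d := S.d0) (Or.inr rfl) S.hab.ne.symm)
    rcases S.touch (fun _ _ h => h.1) h1 with h | ⟨v, z, hv, hz, hvz⟩
    · exact (S.fixed_of_Rab hua hub hφu h).2.1 rfl
    · rcases hz with rfl | rfl
      · exact hvz.2.2 rfl
      · exact S.not_both ha (htouch v _ hv hvz.1)
  · have hd0 : S.swap.d0 = S.d0.symm := rfl
    have hit : S.swap.Λ^[N] S.swap.d0 = D.symm := S.iter_symm N S.d0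
    refine S.swap.pendant (t := -S.τ D) (N := N) (by simpa [swap] using hb) ?_ fun hblk => ?_
    · rw [hit]
      change S.Λ D.symm = D.symm
      rw [S.Λ_symm, hfix]
    · rw [hit] at hblk
      have h0 : S.Av S.b (S.rep S.b D.symm) (S.rep S.b S.d0.symm) := hblk S.b
      have h1 : S.Av S.b u S.a := ((S.av_rep (d := D.symm) hu.symm hub).symm.trans h0).trans
        (S.av_rep (d := S.d0.symm) (Or.inr rfl) S.hab.ne)
      rcases S.touch (fun _ _ h => h.1) h1 with h | ⟨v, z, hv, hz, hvz⟩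
      · exact (S.fixed_of_Rab hua hub hφu h).1 rfl
      · rcases hz with rfl | rfl
        · exact S.not_both (htouch v _ hv hvz.1) hb
        · exact hvz.2.2 rfl

end Setup

end Pool.Agent.Work.MP_5ab958_co
end

-- merged part: Pool.Agent.Work.MP_5ab958_co.Cycle
section
/-!
Short cycles do not wrap around the ring; the bridge case; the ring lemma.
-/

namespace Pool.Agent.Work.MP_5ab958_co

open SimpleGraph Function

/-- A cycle of length `L`, as a periodic sequence of vertices. -/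
structure IsCyc {W : Type} (Γ : SimpleGraph W) (L : ℕ) (c : ℕ → W) : Prop where
  per : ∀ i, c (i + L) = c i
  adj : ∀ i, Γ.Adj (c i) (c (i + 1))
  inj : ∀ i j, i < j → j < i + L → c i ≠ c j

/-- The `i`-th dart of a cycle. -/
def IsCyc.dart {W : Type} {Γ : SimpleGraph W} {L : ℕ} {c : ℕ → W} (h : IsCyc Γ L c) (i : ℕ) :
    Γ.Dart := ⟨(c i, c (i + 1)), h.adj i⟩

theorem IsCyc.dart_per {W : Type} {Γ : SimpleGraph W} {L : ℕ} {c : ℕ → W} (h : IsCyc Γ L c)
    (i : ℕ) : h.dart (i + L) = h.dart i := by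
  refine Dart.ext _ _ (Prod.ext (h.per i) ?_)
  change c (i + L + 1) = c (i + 1)
  rw [← h.per (i + 1)]
  congr 1
  omega

namespace Setup

variable {W V : Type} (S : Setup W V)

/-- The graph without the special edge. -/
def Gm : SimpleGraph W := S.Γ.deleteEdges {s(S.a, S.b)}

theorem gm_adj (d : S.Γ.Dart) : S.Gm.Adj (S.Λ d).fst (S.Λ d).snd := by
  rw [Gm, deleteEdges_adj]
  exact ⟨(S.Λ d).adj, S.hne d⟩

theorem bridge [Finite W] (hb : ¬ S.Gm.Reachable S.a S.b) : False := by
  classical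
  have hex : ∀ w, ∃ s p, S.φ w = S.ι s p := by
    intro w
    by_cases hw : w = S.a
    · exact ⟨_, _, by rw [hw]; exact S.h1 S.d0⟩
    · obtain ⟨p⟩ := S.conn w S.a
      cases p with
      | nil => exact absurd rfl hw
      | cons h _ => exact ⟨_, _, S.h1 ⟨(_, _), h⟩⟩
  choose σ π hσ using hex
  let col : ZMod 3 → W → ZMod 3 := fun s p => if S.Gm.Reachable S.a p then s else s + 1
  have hcol : ∀ s s' p p', S.ι s p = S.ι s' p' → col s p = col s' p' := by
    intro s s' p p' h
    by_cases hs : s = s'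
    · subst hs; rw [S.A1 _ h]
    · rcases S.A2 s s' p p' hs h with ⟨h1, h2, h3⟩ | ⟨h1, h2, h3⟩
      · simp only [col, h1, h2, hb, Reachable.refl, if_true, if_false, h3]
      · simp only [col, h1, h2, hb, Reachable.refl, if_true, if_false, h3]
  have hedge : ∀ v w, S.Γ.Adj v w → col (σ v) (π v) = col (σ w) (π w) := by
    intro v w hvw
    let e : S.Γ.Dart := ⟨(v, w), hvw⟩
    have e1 : S.φ v = S.ι (S.τ e) (S.Λ e).fst := S.h1 e
    have e2 : S.φ w = S.ι (S.τ e) (S.Λ e).snd := S.h2 e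
    rw [hcol _ _ _ _ ((hσ v).symm.trans e1), hcol _ _ _ _ ((hσ w).symm.trans e2)]
    have hr := (S.gm_adj e).reachable
    have : S.Gm.Reachable S.a (S.Λ e).fst ↔ S.Gm.Reachable S.a (S.Λ e).snd :=
      ⟨fun h => h.trans hr, fun h => h.trans hr.symm⟩
    simp only [col, this]
  have hconst : ∀ v w, col (σ v) (π v) = col (σ w) (π w) := by
    intro v w
    have := (reachable_iff_reflTransGen v w).1 (S.conn v w)
    induction this with
    | refl => rfl
    | tail _ h2 ih => exact ih.trans (hedge _ _ h2)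
  let pr : W → W := fun w => if π w = S.b then S.a else π w
  have hpr : ∀ w, S.φ w =
      S.ι (if S.Gm.Reachable S.a (pr w) then col (σ w) (π w) else col (σ w) (π w) - 1) (pr w) := by
    intro w
    by_cases h : π w = S.b
    · simp only [pr, col, h, if_true, hb, if_false, Reachable.refl]
      rw [hσ w, h, S.A3]
    · simp only [pr, col, h, if_false]
      split_ifs
      · exact hσ w
      · simpa using hσ w
  have hinj : Injective pr := by
    intro v w h
    apply S.φinj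
    rw [hpr v, hpr w, h, hconst v w]
  obtain ⟨w, hw⟩ := Finite.surjective_of_injective hinj S.b
  by_cases h : π w = S.b
  · simp only [pr, h, if_true] at hw
    exact S.hab.ne hw
  · simp only [pr, h, if_false] at hw

theorem nowrap {L : ℕ} {c : ℕ → W} (hc : IsCyc S.Γ L c) (hL0 : 0 < L)
    (hL : L ≤ S.Gm.dist S.b S.a + 1) (i : ℕ) : S.τ (hc.dart i) = S.τ (hc.dart 0) := by
  classical
  set s := S.τ (hc.dart 0) with hs
  set ℓ := S.Gm.dist S.b S.a with hℓ
  by_contra hcon
  have hex : ∃ i, S.τ (hc.dart i) ≠ s := ⟨i, hcon⟩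
  let i0 := Nat.find hex
  have hi0 : S.τ (hc.dart i0) ≠ s := Nat.find_spec hex
  have hmin : ∀ j < i0, S.τ (hc.dart j) = s := fun j hj => by
    simpa using Nat.find_min hex hj
  have hi0pos : 0 < i0 := by
    rcases Nat.eq_zero_or_pos i0 with h | h
    · rw [h] at hi0; exact absurd rfl hi0
    · exact h
  have hi0L : i0 < L := by
    by_contra hge
    push Not at hge
    have h1 := hmin (i0 - L) (by omega)
    rw [← hc.dart_per, Nat.sub_add_cancel hge] at h1
    exact hi0 h1
  have hτL : S.τ (hc.dart L) = s := by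
    have := hc.dart_per 0
    rw [zero_add] at this
    rw [this]
  have hex2 : ∃ j, i0 < j ∧ S.τ (hc.dart j) = s := ⟨L, hi0L, hτL⟩
  let j0 := Nat.find hex2
  have hj0 : i0 < j0 ∧ S.τ (hc.dart j0) = s := Nat.find_spec hex2
  have hj0L : j0 ≤ L := Nat.find_min' hex2 ⟨hi0L, hτL⟩
  have hmid : ∀ j, i0 ≤ j → j < j0 → S.τ (hc.dart j) ≠ s := by
    intro j h1 h2
    rcases h1.eq_or_lt with h | h
    · rw [← h]; exact hi0
    · intro h3
      exact Nat.find_min hex2 h2 ⟨h, h3⟩
  let Fv : V → ℤ := fun v => if v = S.ι s S.b then (ℓ : ℤ) + 1 else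
    if h : ∃ p, v = S.ι (s - 1) p then min (ℓ : ℤ) (S.Gm.dist S.b h.choose) else ℓ
  have hF1 : ∀ p, Fv (S.ι (s - 1) p) = min (ℓ : ℤ) (S.Gm.dist S.b p) := by
    intro p
    have hne : S.ι (s - 1) p ≠ S.ι s S.b := by
      intro h
      rcases S.A2 _ _ _ _ (by simp) h with h | h
      · have h3 := h.2.2
        revert h3
        generalize s = x
        revert x
        decide
      · exact S.hab.ne h.2.1.symm
    have hex : ∃ p', S.ι (s - 1) p = S.ι (s - 1) p' := ⟨p, rfl⟩
    simp only [Fv, if_neg hne, dif_pos hex]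
    rw [← S.A1 _ hex.choose_spec]
  have hF2 : ∀ p, Fv (S.ι (s + 1) p) = ℓ ∨ Fv (S.ι (s + 1) p) = ℓ + 1 := by
    intro p
    by_cases h1 : S.ι (s + 1) p = S.ι s S.b
    · right; simp only [Fv, if_pos h1]
    · left
      by_cases h2 : ∃ p', S.ι (s + 1) p = S.ι (s - 1) p'
      · obtain ⟨p', hp'⟩ := h2
        rw [hp', hF1]
        have hne : s + 1 ≠ s - 1 := by
          generalize s = x
          revert x
          decide
        rcases S.A2 _ _ _ _ hne hp' with h | h
        · have h3 := h.2.2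
          exfalso
          revert h3
          generalize s = x
          revert x
          decide
        · rw [h.2.1]; simp [hℓ]
      · simp only [Fv, if_neg h1, dif_neg h2]
  have hlip : ∀ d : S.Γ.Dart, S.τ d ≠ s → |Fv (S.φ d.snd) - Fv (S.φ d.fst)| ≤ 1 := by
    intro d hd
    have hcases : S.τ d = s - 1 ∨ S.τ d = s + 1 := by
      revert hd
      generalize S.τ d = y
      generalize s = x
      revert x y
      decide
    rw [S.h1, S.h2]
    rcases hcases with h | h
    · rw [h, hF1, hF1]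
      have := (S.gm_adj d).diff_dist_adj (u := S.b)
      rw [abs_le]
      omega
    · rw [h]
      rcases hF2 (S.Λ d).fst with h1 | h1 <;> rcases hF2 (S.Λ d).snd with h2 | h2 <;>
        rw [h1, h2] <;> simp
  have hrun : ∀ k, i0 + k ≤ j0 → |Fv (S.φ (c (i0 + k))) - Fv (S.φ (c i0))| ≤ k := by
    intro k
    induction k with
    | zero => simp
    | succ k ih =>
      intro hk
      have h1 := ih (by omega)
      have h2 : |Fv (S.φ (c (i0 + k + 1))) - Fv (S.φ (c (i0 + k)))| ≤ 1 :=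
        hlip (hc.dart (i0 + k)) (hmid _ (by omega) (by omega))
      rw [abs_le] at h1 h2 ⊢
      rw [← add_assoc]
      push_cast
      constructor <;> linarith [h1.1, h1.2, h2.1, h2.2]
  have hFa : Fv (S.ι s S.a) = 0 := by
    have : S.ι s S.a = S.ι (s - 1) S.b := by rw [S.A3]; simp
    rw [this, hF1]
    simp
  have hFb : Fv (S.ι s S.b) = ℓ + 1 := by simp only [Fv, if_true]
  have hstart : S.φ (c i0) = S.ι s S.a ∨ S.φ (c i0) = S.ι s S.b := by
    have e1 : S.φ (c (i0 - 1 + 1)) = _ := S.h2 (hc.dart (i0 - 1))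
    rw [hmin _ (by omega), Nat.sub_add_cancel hi0pos] at e1
    have e2 : S.φ (c i0) = _ := S.h1 (hc.dart i0)
    rcases S.mem_ab hi0.symm (e1.symm.trans e2) with h | h
    · left; rw [e1, h]
    · right; rw [e1, h]
  have hend : S.φ (c j0) = S.ι s S.a ∨ S.φ (c j0) = S.ι s S.b := by
    have e1 : S.φ (c (j0 - 1 + 1)) = _ := S.h2 (hc.dart (j0 - 1))
    rw [Nat.sub_add_cancel (by omega)] at e1
    have e2 : S.φ (c j0) = _ := S.h1 (hc.dart j0)
    rw [hj0.2] at e2
    rcases S.mem_ab (hmid (j0 - 1) (by omega) (by omega)).symm (e2.symm.trans e1) with h | h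
    · left; rw [e2, h]
    · right; rw [e2, h]
  have hne : S.φ (c i0) ≠ S.φ (c j0) := fun h => hc.inj i0 j0 hj0.1 (by omega) (S.φinj h)
  have h3 := hrun (j0 - i0) (by omega)
  rw [Nat.add_sub_cancel' hj0.1.le] at h3
  have h4 : ((j0 - i0 : ℕ) : ℤ) ≤ ℓ := by omega
  rw [abs_le] at h3
  rcases hstart with h5 | h5 <;> rcases hend with h6 | h6
  · exact hne (h5.trans h6.symm)
  · rw [h5, h6, hFa, hFb] at h3; omega
  · rw [h5, h6, hFa, hFb] at h3; omega
  · exact hne (h5.trans h6.symm)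

theorem next_cyc {L : ℕ} {c : ℕ → W} (hc : IsCyc S.Γ L c) (hL0 : 0 < L)
    (hL : L ≤ S.Gm.dist S.b S.a + 1) :
    ∃ (c' : ℕ → W) (hc' : IsCyc S.Γ L c'), ∀ i, hc'.dart i = S.Λ (hc.dart i) := by
  have hτ := S.nowrap hc hL0 hL
  have hφ : ∀ i, S.φ (c i) = S.ι (S.τ (hc.dart 0)) (S.Λ (hc.dart i)).fst := by
    intro i
    rw [← hτ i]
    exact S.h1 (hc.dart i)
  have hsnd : ∀ i, (S.Λ (hc.dart i)).snd = (S.Λ (hc.dart (i + 1))).fst := by
    intro i
    have e2 : S.φ (c (i + 1)) = _ := S.h2 (hc.dart i)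
    rw [hτ i, hφ (i + 1)] at e2
    exact (S.A1 _ e2).symm
  refine ⟨fun i => (S.Λ (hc.dart i)).fst, ⟨?_, ?_, ?_⟩, ?_⟩
  · intro i; rw [hc.dart_per]
  · intro i; rw [← hsnd]; exact (S.Λ (hc.dart i)).adj
  · intro i j h1 h2 h
    apply hc.inj i j h1 h2
    apply S.φinj
    rw [hφ, hφ, h]
  · intro i
    exact Dart.ext _ _ (Prod.ext rfl (hsnd i).symm)

theorem exists_first_cyc (hb : S.Gm.Reachable S.a S.b) :
    3 ≤ S.Gm.dist S.b S.a + 1 ∧
      ∃ (c : ℕ → W) (hc : IsCyc S.Γ (S.Gm.dist S.b S.a + 1) c), hc.dart 0 = S.d0 := by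
  obtain ⟨p, hp, hlen⟩ := hb.symm.exists_path_of_dist
  set ℓ := S.Gm.dist S.b S.a with hℓ
  have hℓ2 : 2 ≤ ℓ := by
    have h0 : ℓ ≠ 0 := by
      intro h0
      rw [h0] at hlen
      exact S.hab.ne (Walk.eq_of_length_eq_zero hlen).symm
    have h1 : ℓ ≠ 1 := by
      intro h1
      have := dist_eq_one_iff_adj.1 h1
      rw [Gm, deleteEdges_adj] at this
      exact this.2 (by simp [Sym2.eq_swap])
    omega
  have hle : S.Gm ≤ S.Γ := deleteEdges_le _
  refine ⟨by omega, fun i => p.getVert ((i + ℓ) % (ℓ + 1)), ⟨?_, ?_, ?_⟩, ?_⟩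
  · intro i
    congr 1
    rw [show i + (ℓ + 1) + ℓ = i + ℓ + (ℓ + 1) by ring, Nat.add_mod_right]
  · intro i
    have hlt : (i + ℓ) % (ℓ + 1) < ℓ + 1 := Nat.mod_lt _ (by omega)
    have hs : (i + 1 + ℓ) % (ℓ + 1) = ((i + ℓ) % (ℓ + 1) + 1) % (ℓ + 1) := by
      rw [show i + 1 + ℓ = i + ℓ + 1 by ring, Nat.add_mod, Nat.mod_eq_of_lt (show 1 < ℓ + 1 by omega)]
    rw [hs]
    generalize (i + ℓ) % (ℓ + 1) = m at hlt
    by_cases hm : m < ℓ
    · rw [Nat.mod_eq_of_lt (by omega)]
      exact hle (p.adj_getVert_succ (by omega))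
    · have : m = ℓ := by omega
      rw [this, Nat.mod_self, ← hlen]
      simpa using S.hab
  · intro i j h1 h2 h
    have hi : (i + ℓ) % (ℓ + 1) < ℓ + 1 := Nat.mod_lt _ (by omega)
    have hj : (j + ℓ) % (ℓ + 1) < ℓ + 1 := Nat.mod_lt _ (by omega)
    have := hp.getVert_injOn (show (i + ℓ) % (ℓ + 1) ≤ p.length by omega)
      (show (j + ℓ) % (ℓ + 1) ≤ p.length by omega) h
    have h3 : (ℓ + 1) ∣ (j + ℓ) - (i + ℓ) := (Nat.modEq_iff_dvd' (by omega)).1 this
    have h4 := Nat.le_of_dvd (by omega) h3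
    omega
  · refine Dart.ext _ _ (Prod.ext ?_ ?_)
    · change p.getVert ((0 + ℓ) % (ℓ + 1)) = S.a
      rw [zero_add, Nat.mod_eq_of_lt (by omega), ← hlen]
      simp
    · change p.getVert ((0 + 1 + ℓ) % (ℓ + 1)) = S.b
      rw [show 0 + 1 + ℓ = ℓ + 1 by ring, Nat.mod_self]
      simp

/-- The ring lemma. -/
theorem false_of_setup [Finite W] (S : Setup W V) : False := by
  by_cases hb : S.Gm.Reachable S.a S.b
  swap
  · exact S.bridge hb
  obtain ⟨hL, c0, hc0, hd0⟩ := S.exists_first_cyc hb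
  have hiter : ∀ n, ∃ (c : ℕ → W) (hc : IsCyc S.Γ (S.Gm.dist S.b S.a + 1) c),
      ∀ i, hc.dart i = S.Λ^[n] (hc0.dart i) := by
    intro n
    induction n with
    | zero => exact ⟨c0, hc0, fun _ => rfl⟩
    | succ n ih =>
      obtain ⟨c, hc, h⟩ := ih
      obtain ⟨c', hc', h'⟩ := S.next_cyc hc (by omega) le_rfl
      exact ⟨c', hc', fun i => by rw [h', h, iterate_succ_apply']⟩
  obtain ⟨N0, hN0⟩ := eventually_key_eq S.Λ (fun d => S.l d.edge) S.mono (hc0.dart 0)
  obtain ⟨N1, hN1⟩ := eventually_key_eq S.Λ (fun d => S.l d.edge) S.mono (hc0.dart 1)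
  obtain ⟨c, hc, h⟩ := hiter (N0 + N1)
  obtain ⟨c', hc', h'⟩ := S.next_cyc hc (by omega) le_rfl
  have e0 := S.edge_eq_of_key (hN0 (N0 + N1) (by omega))
  have e1 := S.edge_eq_of_key (hN1 (N0 + N1) (by omega))
  rw [← h] at e0 e1
  apply S.no_fixed (N := N0 + N1)
  rw [← hd0, ← h]
  rcases (dart_edge_eq_iff _ _).1 e0 with h0 | h0
  · exact h0
  · exfalso
    rw [← h'] at h0 e1
    have a1 : c' 1 = c 0 := congrArg (fun d : S.Γ.Dart => d.snd) h0
    rcases (dart_edge_eq_iff _ _).1 e1 with h1 | h1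
    · have a2 : c' 1 = c 1 := congrArg (fun d : S.Γ.Dart => d.fst) h1
      exact hc.inj 0 1 (by omega) (by omega) (a1.symm.trans a2)
    · have a2 : c' 1 = c 2 := congrArg (fun d : S.Γ.Dart => d.fst) h1
      exact hc.inj 0 2 (by omega) (by omega) (a1.symm.trans a2)

end Setup

end Pool.Agent.Work.MP_5ab958_co
end

-- merged part: Pool.Agent.Work.MP_5ab958_co.Main
section
/-!
The host graph: three cyclically glued copies of every component, and the greedy completion.
-/

namespace Pool.Agent.Work.MP_5ab958_co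

open SimpleGraph Function

/-- The data of the construction. -/
structure Data (W V : Type) where
  F : EOGraph W
  a0 : W
  b0 : W
  h0 : F.G.Adj a0 b0
  hmin : ∀ e ∈ F.G.edgeSet, e ≠ s(a0, b0) → F.l s(a0, b0) < F.l e ∧ a0 ∉ e ∧ b0 ∉ e
  ord : W → ℕ
  ordinj : Injective ord
  j : W × ZMod 3 → V
  jinj : Injective j

namespace Data

variable {W V : Type} (D : Data W V)

/-- The graph without its minimal edge. -/
def G : SimpleGraph W := D.F.G.deleteEdges {s(D.a0, D.b0)}

theorem G_adj {p q : W} : D.G.Adj p q ↔ D.F.G.Adj p q ∧ s(p, q) ≠ s(D.a0, D.b0) := by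
  simp [G, deleteEdges_adj]

theorem G_edge {e : Sym2 W} : e ∈ D.G.edgeSet ↔ e ∈ D.F.G.edgeSet ∧ e ≠ s(D.a0, D.b0) := by
  induction e using Sym2.ind with
  | _ p q => simpa using D.G_adj

/-- The oriented minimal edge of a component. -/
def MinE (a b : W) : Prop :=
  D.G.Adj a b ∧ D.ord a < D.ord b ∧
    ∀ p q, D.G.Adj p q → D.G.Reachable a p → D.F.l s(a, b) ≤ D.F.l s(p, q)

theorem MinE.uniq {D : Data W V} {a b a' b' : W} (h : D.MinE a b) (h' : D.MinE a' b')
    (hr : D.G.Reachable a a') : a = a' ∧ b = b' := by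
  have h1 := h.2.2 a' b' h'.1 hr
  have h2 := h'.2.2 a b h.1 hr.symm
  have h3 : s(a, b) = s(a', b') :=
    D.F.inj (D.G_adj.1 h.1).1 (D.G_adj.1 h'.1).1 (le_antisymm h1 h2)
  rcases Sym2.eq_iff.1 h3 with h4 | h4
  · exact h4
  · have a1 := h.2.1
    have a2 := h'.2.1
    rw [h4.1, h4.2] at a1
    omega

theorem exists_MinE [Finite W] {p q : W} (hpq : D.G.Adj p q) :
    ∃ a b, D.MinE a b ∧ D.G.Reachable a p := by
  obtain ⟨⟨a, b⟩, ⟨hab, hr⟩, hm⟩ := Set.exists_min_image
    {z : W × W | D.G.Adj z.1 z.2 ∧ D.G.Reachable p z.1} (fun z => D.F.l s(z.1, z.2))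
    (Set.toFinite _) ⟨(p, q), hpq, Reachable.refl _⟩
  simp only at hab hr hm
  rcases lt_trichotomy (D.ord a) (D.ord b) with h | h | h
  · exact ⟨a, b, ⟨hab, h, fun p' q' h1 h2 => hm (p', q') ⟨h1, hr.trans h2⟩⟩, hr.symm⟩
  · exact absurd (D.ordinj h) hab.ne
  · refine ⟨b, a, ⟨hab.symm, h, fun p' q' h1 h2 => ?_⟩, (hr.trans hab.reachable).symm⟩
    rw [Sym2.eq_swap]
    exact hm (p', q') ⟨h1, (hr.trans hab.reachable).trans h2⟩

open Classical in
/-- The three copies, before placing them in the host vertex set. -/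
noncomputable def ι0 (s : ZMod 3) (u : W) : W × ZMod 3 :=
  if h : ∃ a, D.MinE a u then (h.choose, s + 1) else (u, s)

/-- The three copies. -/
noncomputable def ι (s : ZMod 3) (u : W) : V := D.j (D.ι0 s u)

theorem ι0_B {a b : W} (h : D.MinE a b) (s : ZMod 3) : D.ι0 s b = (a, s + 1) := by
  have hex : ∃ a, D.MinE a b := ⟨a, h⟩
  have := (hex.choose_spec.uniq h (hex.choose_spec.1.reachable.trans h.1.reachable.symm)).1
  simp only [ι0, dif_pos hex, this]

theorem ι0_nB {u : W} (h : ¬ ∃ a, D.MinE a u) (s : ZMod 3) : D.ι0 s u = (u, s) := by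
  simp only [ι0, dif_neg h]

theorem ι0_A {a b : W} (h : D.MinE a b) (s : ZMod 3) : D.ι0 s a = (a, s) := by
  apply D.ι0_nB
  rintro ⟨a', h'⟩
  exact h.1.ne (h'.uniq h h'.1.reachable).2

theorem ι_cases {s s' : ZMod 3} {p p' : W} (h : D.ι s p = D.ι s' p') :
    (s = s' ∧ p = p') ∨ (D.MinE p p' ∧ s = s' + 1) ∨ (D.MinE p' p ∧ s' = s + 1) := by
  have h := D.jinj h
  by_cases h1 : ∃ a, D.MinE a p <;> by_cases h2 : ∃ a, D.MinE a p'
  · obtain ⟨a, ha⟩ := h1
    obtain ⟨a', ha'⟩ := h2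
    rw [D.ι0_B ha, D.ι0_B ha', Prod.mk.injEq] at h
    left
    refine ⟨by simpa using h.2, (ha.uniq ha' (by rw [h.1])).2⟩
  · obtain ⟨a, ha⟩ := h1
    rw [D.ι0_B ha, D.ι0_nB h2, Prod.mk.injEq] at h
    right; right
    exact ⟨h.1 ▸ ha, h.2.symm⟩
  · obtain ⟨a, ha⟩ := h2
    rw [D.ι0_B ha, D.ι0_nB h1, Prod.mk.injEq] at h
    right; left
    exact ⟨h.1 ▸ ha, h.2⟩
  · rw [D.ι0_nB h1, D.ι0_nB h2, Prod.mk.injEq] at h
    exact Or.inl ⟨h.2, h.1⟩

theorem ι_inj (s : ZMod 3) : Injective (D.ι s) := by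
  intro p p' h
  rcases D.ι_cases h with h | h | h
  · exact h.2
  · simpa using h.2
  · simpa using h.2

theorem ι_reach {s s' : ZMod 3} {p p' : W} (h : D.ι s p = D.ι s' p') : D.G.Reachable p p' := by
  rcases D.ι_cases h with h | h | h
  · rw [h.2]
  · exact h.1.1.reachable
  · exact h.1.1.reachable.symm

theorem ι_A3 {a b : W} (h : D.MinE a b) (s : ZMod 3) : D.ι s b = D.ι (s + 1) a := by
  rw [ι, ι, D.ι0_B h, D.ι0_A h]

theorem exists_avoid (v : V) : ∃ s, ∀ w, D.ι s w ≠ v := by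
  by_cases hv : ∃ z, D.j z = v
  · obtain ⟨⟨u, t⟩, rfl⟩ := hv
    refine ⟨t + 1, fun w h => ?_⟩
    have h := congrArg Prod.snd (D.jinj h)
    by_cases h1 : ∃ a, D.MinE a w
    · obtain ⟨a, ha⟩ := h1
      rw [D.ι0_B ha] at h
      have hz : ∀ x : ZMod 3, x + 1 + 1 ≠ x := by decide
      exact hz t h
    · rw [D.ι0_nB h1] at h
      simp at h
  · exact ⟨0, fun w h => hv ⟨_, h⟩⟩

theorem ι_dart_uniq {s s' : ZMod 3} {p q p' q' : W} (h : D.G.Adj p q) (h1 : D.ι s p = D.ι s' p')
    (h2 : D.ι s q = D.ι s' q') : s = s' := by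
  by_contra hs
  have hz : ∀ x y : ZMod 3, x = y + 1 → y = x + 1 → False := by decide
  rcases D.ι_cases h1 with a | a | a
  · exact hs a.1
  · rcases D.ι_cases h2 with b | b | b
    · exact hs b.1
    · exact h.ne (a.1.uniq b.1 h.reachable).1
    · exact hz _ _ a.2 b.2
  · rcases D.ι_cases h2 with b | b | b
    · exact hs b.1
    · exact hz _ _ b.2 a.2
    · exact h.ne (a.1.uniq b.1
        ((a.1.1.reachable.trans h.reachable).trans b.1.1.reachable.symm)).2

theorem ι_edge_uniq {s s' : ZMod 3} {e e' : Sym2 W} (he : e ∈ D.G.edgeSet)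
    (h : e.map (D.ι s) = e'.map (D.ι s')) : s = s' ∧ e = e' := by
  have hs : s = s' := by
    induction e using Sym2.ind with
    | _ p q =>
    induction e' using Sym2.ind with
    | _ p' q' =>
    simp only [Sym2.map_mk, Sym2.eq_iff] at h
    rcases h with h | h
    · exact D.ι_dart_uniq he h.1 h.2
    · exact D.ι_dart_uniq he h.1 h.2
  subst hs
  exact ⟨rfl, Sym2.map.injective (D.ι_inj s) h⟩

/-- The rank of a label. -/
noncomputable def rk (e : Sym2 W) : ℕ := {e' | e' ∈ D.G.edgeSet ∧ D.F.l e' < D.F.l e}.ncard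

theorem rk_lt [Finite W] {e e' : Sym2 W} (he : e ∈ D.G.edgeSet) (h : D.F.l e < D.F.l e') :
    D.rk e < D.rk e' := by
  refine Set.ncard_lt_ncard ⟨fun x hx => ⟨hx.1, hx.2.trans h⟩, fun hsub => ?_⟩ (Set.toFinite _)
  exact lt_irrefl _ (hsub ⟨he, h⟩).2

open Classical in
/-- The labels of the host graph. -/
noncomputable def lab (x : Sym2 V) : ℝ :=
  if h : ∃ z : ZMod 3 × Sym2 W, z.2 ∈ D.G.edgeSet ∧ x = z.2.map (D.ι z.1) then
    ((3 * D.rk h.choose.2 + h.choose.1.val : ℕ) : ℝ) else 0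

theorem lab_eq {e : Sym2 W} (he : e ∈ D.G.edgeSet) (s : ZMod 3) :
    D.lab (e.map (D.ι s)) = ((3 * D.rk e + s.val : ℕ) : ℝ) := by
  have hex : ∃ z : ZMod 3 × Sym2 W, z.2 ∈ D.G.edgeSet ∧ e.map (D.ι s) = z.2.map (D.ι z.1) :=
    ⟨(s, e), he, rfl⟩
  have := D.ι_edge_uniq he hex.choose_spec.2
  simp only [lab, dif_pos hex]
  rw [← this.1, ← this.2]

/-- The host graph. -/
def HG : SimpleGraph V where
  Adj x y := ∃ s p q, D.G.Adj p q ∧ x = D.ι s p ∧ y = D.ι s q
  symm := ⟨by
    rintro x y ⟨s, p, q, h, rfl, rfl⟩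
    exact ⟨s, q, p, h.symm, rfl, rfl⟩⟩
  loopless := ⟨by
    rintro x ⟨s, p, q, h, h1, h2⟩
    exact h.ne (D.ι_inj s (h1.symm.trans h2))⟩

theorem mem_HG {x : Sym2 V} : x ∈ D.HG.edgeSet ↔ ∃ s, ∃ e ∈ D.G.edgeSet, x = e.map (D.ι s) := by
  induction x using Sym2.ind with
  | _ x y =>
  constructor
  · rintro ⟨s, p, q, h, rfl, rfl⟩
    exact ⟨s, s(p, q), h, rfl⟩
  · rintro ⟨s, e, he, h⟩
    induction e using Sym2.ind with
    | _ p q =>
    rw [h]
    exact ⟨s, p, q, he, rfl, rfl⟩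

theorem val_lt (s : ZMod 3) : s.val < 3 := ZMod.val_lt s

/-- The edge-ordered host graph. -/
noncomputable def H0 [Finite W] : EOGraph V where
  G := D.HG
  l := D.lab
  inj := by
    intro x hx y hy h
    obtain ⟨s, e, he, rfl⟩ := D.mem_HG.1 hx
    obtain ⟨s', e', he', rfl⟩ := D.mem_HG.1 hy
    rw [D.lab_eq he, D.lab_eq he', Nat.cast_inj] at h
    have h1 := val_lt s
    have h2 := val_lt s'
    have h3 : s = s' := ZMod.val_injective 3 (by omega)
    have h4 : D.rk e = D.rk e' := by omega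
    have h5 : D.F.l e = D.F.l e' := by
      rcases lt_trichotomy (D.F.l e) (D.F.l e') with h | h | h
      · exact absurd h4 (D.rk_lt he h).ne
      · exact h
      · exact absurd h4 (D.rk_lt he' h).ne'
    rw [h3, D.F.inj (D.G_edge.1 he).1 (D.G_edge.1 he').1 h5]

theorem avoids [Finite W] : ¬ Contains D.H0 D.F := by
  classical
  rintro ⟨φ, hφ, hadj, hord⟩
  have hex : ∀ d : D.F.G.Dart, ∃ s p q, D.G.Adj p q ∧ φ d.fst = D.ι s p ∧ φ d.snd = D.ι s q :=
    fun d => hadj _ _ d.adj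
  choose τ P Q hG h1 h2 using hex
  let Λ : D.F.G.Dart → D.F.G.Dart := fun d => ⟨(P d, Q d), (D.G_adj.1 (hG d)).1⟩
  have hΛG : ∀ d, (Λ d).edge ∈ D.G.edgeSet := fun d => hG d
  have hmap : ∀ d : D.F.G.Dart, d.edge.map φ = (Λ d).edge.map (D.ι (τ d)) := by
    intro d
    simp only [Dart.edge, Sym2.map_mk, h1, h2, Λ]
  let key : D.F.G.Dart → ℝ := fun d => D.F.l d.edge
  have hkey : ∀ d d', key d = key d' → d.edge = d'.edge := fun d d' h =>
    D.F.inj d.edge_mem d'.edge_mem h
  have hmono : ∀ d d', key d ≤ key d' → key (Λ d) ≤ key (Λ d') := by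
    intro d d' h
    rcases h.lt_or_eq with h | h
    · have := hord _ d.edge_mem _ d'.edge_mem h
      rw [hmap, hmap] at this
      change D.lab _ < D.lab _ at this
      rw [D.lab_eq (hΛG d), D.lab_eq (hΛG d'), Nat.cast_lt] at this
      by_contra hcon
      have h3 := D.rk_lt (hΛG d') (not_le.1 hcon)
      have := val_lt (τ d')
      omega
    · have h3 := hmap d
      rw [hkey _ _ h, hmap d'] at h3
      have := (D.ι_edge_uniq (hΛG d') h3).2
      simp only [key, this, le_refl]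
  let d00 : D.F.G.Dart := ⟨(D.a0, D.b0), D.h0⟩
  have hd00 : ∀ d : D.F.G.Dart, d.edge ≠ s(D.a0, D.b0) → key d00 < key d := fun d h =>
    (D.hmin _ d.edge_mem h).1
  obtain ⟨dm, -, hdm⟩ := Set.exists_max_image Set.univ key (Set.toFinite _) ⟨d00, trivial⟩
  obtain ⟨g, hg, hgmin⟩ := Set.exists_min_image {d | key (Λ d) ≤ key d} key (Set.toFinite _)
    ⟨dm, hdm _ trivial⟩
  have hge : g.edge ≠ s(D.a0, D.b0) := by
    intro h
    have h3 := hd00 (Λ g) (D.G_edge.1 (hΛG g)).2
    have h4 : key g = key d00 := by simp only [key, h]; rfl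
    have h5 : key (Λ g) ≤ key g := hg
    linarith
  obtain ⟨g', hg', hg'max⟩ := Set.exists_max_image {d | key d < key g} key (Set.toFinite _)
    ⟨d00, hd00 g hge⟩
  have hg'lt : key g' < key g := hg'
  have k1 : key g' < key (Λ g') := by
    by_contra hcon
    have := hgmin g' (not_lt.1 hcon)
    linarith
  have k2 : key g ≤ key (Λ g') := by
    by_contra hcon
    have := hg'max (Λ g') (not_le.1 hcon)
    linarith
  have k3 := hmono _ _ hg'lt.le
  have k4 : key (Λ g) ≤ key g := hg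
  have e1 : (Λ g).edge = g.edge := hkey _ _ (by linarith)
  have e2 : (Λ g').edge = g.edge := hkey _ _ (by linarith)
  have hgG : D.G.Adj g.fst g.snd := D.G_adj.2 ⟨g.adj, hge⟩
  obtain ⟨a, b, hab, hra⟩ := D.exists_MinE hgG
  have hK : ∀ u, D.G.Reachable a u → ∃ s p, φ u = D.ι s p ∧ D.G.Reachable a p := by
    intro u hu
    have := (reachable_iff_reflTransGen g.fst u).1 (hra.symm.trans hu)
    clear hu
    induction this with
    | refl =>
      refine ⟨_, _, h1 g, ?_⟩
      rcases (dart_edge_eq_iff _ _).1 e1 with h | h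
      · have : P g = g.fst := congrArg (fun d : D.F.G.Dart => d.fst) h
        rw [this]; exact hra
      · have : P g = g.snd := congrArg (fun d : D.F.G.Dart => d.fst) h
        rw [this]; exact hra.trans hgG.reachable
    | @tail x y _ hxy ih =>
      obtain ⟨s, p, hp, hr⟩ := ih
      let d : D.F.G.Dart := ⟨(x, y), (D.G_adj.1 hxy).1⟩
      exact ⟨_, _, h2 d, (hr.trans (D.ι_reach (hp.symm.trans (h1 d)))).trans (hG d).reachable⟩
  have hKP : ∀ d : D.F.G.Dart, D.G.Reachable a d.fst → D.G.Reachable a (P d) := by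
    intro d hd
    obtain ⟨s, p, hp, hr⟩ := hK _ hd
    exact hr.trans (D.ι_reach (hp.symm.trans (h1 d)))
  by_cases hA : ∃ f : D.F.G.Dart, D.G.Adj f.fst f.snd ∧ D.G.Reachable a f.fst ∧
      (Λ f).edge = s(a, b)
  · obtain ⟨f, hf1, hf2, hf3⟩ := hA
    let dab : D.F.G.Dart := ⟨(a, b), (D.G_adj.1 hab.1).1⟩
    have m1 : key dab ≤ key f := hab.2.2 _ _ hf1 hf2
    have m2 : key (Λ dab) ≤ key dab := by
      have := hmono _ _ m1
      have h3 : key (Λ f) = key dab := by simp only [key, hf3]; rfl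
      linarith
    have m3 : key g ≤ key dab := hgmin dab m2
    have m4 : key dab ≤ key g := hab.2.2 _ _ hgG hra
    have e3 : g.edge = s(a, b) := hkey g dab (le_antisymm m3 m4)
    have i1 := hmap g
    have i2 := hmap g'
    rw [e1, e3, Sym2.map_mk (D.ι _), D.ι_A3 hab] at i1
    rw [e2, e3, Sym2.map_mk (D.ι _), D.ι_A3 hab] at i2
    have hz : ∃ z, z ∈ Sym2.map φ s(a, b) ∧ z ∈ Sym2.map φ g'.edge := by
      rw [i1, i2]
      have hc : ∀ x y : ZMod 3, y = x ∨ y = x + 1 ∨ x = y + 1 := by decide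
      rcases hc (τ g) (τ g') with h | h | h
      · exact ⟨D.ι (τ g) a, by simp, by simp [h]⟩
      · exact ⟨D.ι (τ g') a, by simp [h], by simp⟩
      · exact ⟨D.ι (τ g) a, by simp, by simp [h]⟩
    obtain ⟨z, hz1, hz2⟩ := hz
    obtain ⟨x, hx, rfl⟩ := Sym2.mem_map.1 hz1
    obtain ⟨y, hy, hxy⟩ := Sym2.mem_map.1 hz2
    rw [hφ hxy] at hy
    have hxa : D.G.Reachable a x := by
      rcases Sym2.mem_iff.1 hx with rfl | rfl
      · rfl
      · exact hab.1.reachable
    by_cases he : g'.edge = s(D.a0, D.b0)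
    · have := D.hmin _ dab.edge_mem (D.G_adj.1 hab.1).2
      rw [he] at hy
      rcases Sym2.mem_iff.1 hy with rfl | rfl
      · exact this.2.1 hx
      · exact this.2.2 hx
    · have hg'G : D.G.Adj g'.fst g'.snd := D.G_adj.2 ⟨g'.adj, he⟩
      have hr : D.G.Reachable a g'.fst := by
        rcases Sym2.mem_iff.1 hy with rfl | rfl
        · exact hxa
        · exact hxa.trans hg'G.reachable.symm
      have : key dab ≤ key g' := hab.2.2 _ _ hg'G hr
      linarith
  · push Not at hA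
    let K : Set W := {u | D.G.Reachable a u}
    let Γ : SimpleGraph K := D.G.induce K
    let up : Γ.Dart → D.F.G.Dart := fun d => ⟨(d.fst.1, d.snd.1), (D.G_adj.1 d.adj).1⟩
    let aK : K := ⟨a, Reachable.refl a⟩
    let bK : K := ⟨b, hab.1.reachable⟩
    have hreach : ∀ u (hu : D.G.Reachable a u), Γ.Reachable aK ⟨u, hu⟩ := by
      intro u hu
      have := (reachable_iff_reflTransGen a u).1 hu
      induction this with
      | refl => rfl
      | @tail x y hx hxy ih =>
        have hx' := (reachable_iff_reflTransGen a x).2 hx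
        exact (ih hx').trans (Adj.reachable (show Γ.Adj ⟨x, hx'⟩ ⟨y, hu⟩ from hxy))
    let S : Setup K V :=
      { Γ := Γ
        conn := fun u v => (hreach u.1 u.2).symm.trans (hreach v.1 v.2)
        l := fun e => D.F.l (e.map Subtype.val)
        linj := by
          intro e he e' he' h
          induction e using Sym2.ind with
          | _ p q =>
          induction e' using Sym2.ind with
          | _ p' q' =>
          exact Sym2.map.injective Subtype.val_injective
            (D.F.inj (D.G_adj.1 he).1 (D.G_adj.1 he').1 h)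
        a := aK
        b := bK
        hab := hab.1
        ι := fun s u => D.ι s u.1
        A1 := fun s u v h => Subtype.ext (D.ι_inj s h)
        A2 := by
          intro s s' p p' hs h
          rcases D.ι_cases h with h | h | h
          · exact absurd h.1 hs
          · have := hab.uniq h.1 p.2
            exact Or.inl ⟨Subtype.ext this.1.symm, Subtype.ext this.2.symm, h.2⟩
          · have := hab.uniq h.1 p'.2
            exact Or.inr ⟨Subtype.ext this.2.symm, Subtype.ext this.1.symm, h.2⟩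
        A3 := fun s => D.ι_A3 hab s
        φ := fun u => φ u.1
        φinj := fun u v h => Subtype.ext (hφ h)
        Λ := fun d => ⟨(⟨P (up d), hKP _ d.fst.2⟩,
          ⟨Q (up d), (hKP (up d) d.fst.2).trans (hG _).reachable⟩), hG (up d)⟩
        τ := fun d => τ (up d)
        h1 := fun d => h1 (up d)
        h2 := fun d => h2 (up d)
        hne := by
          intro d h
          exact hA (up d) d.adj d.fst.2 (congrArg (Sym2.map Subtype.val) h)
        mono := fun d d' h => hmono (up d) (up d') h }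
    exact S.false_of_setup

theorem contains_of_avoid [Finite W] {H H' : EOGraph V} (hle : D.H0.G ≤ H.G)
    (hl : ∀ e ∈ D.H0.G.edgeSet, H.l e = D.H0.l e) {u v : V} (huv : u ≠ v)
    (hext : IsMinExtension H u v H') {s : ZMod 3} (hu : ∀ w, D.ι s w ≠ u)
    (hv : ∀ w, D.ι s w ≠ v) : Contains H' D.F := by
  classical
  let φ : W → V := fun w => if w = D.a0 then u else if w = D.b0 then v else D.ι s w
  have hφa : φ D.a0 = u := by simp [φ]
  have hφb : φ D.b0 = v := by simp [φ, D.h0.ne.symm]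
  have hφo : ∀ w, w ≠ D.a0 → w ≠ D.b0 → φ w = D.ι s w := fun w h1 h2 => by simp [φ, h1, h2]
  have h0 : Sym2.map φ s(D.a0, D.b0) = s(u, v) := by rw [Sym2.map_mk, hφa, hφb]
  have h1 : ∀ e ∈ D.F.G.edgeSet, e ≠ s(D.a0, D.b0) → e.map φ = e.map (D.ι s) := by
    intro e he hne
    have := (D.hmin e he hne).2
    refine Sym2.map_congr fun w hw => hφo w ?_ ?_
    · rintro rfl; exact this.1 hw
    · rintro rfl; exact this.2 hw
  have h2 : ∀ e ∈ D.F.G.edgeSet, e ≠ s(D.a0, D.b0) → e.map φ ∈ D.H0.G.edgeSet := by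
    intro e he hne
    rw [h1 e he hne]
    exact D.mem_HG.2 ⟨s, e, D.G_edge.2 ⟨he, hne⟩, rfl⟩
  have hsub : D.H0.G.edgeSet ⊆ H.G.edgeSet := edgeSet_mono hle
  refine ⟨φ, ?_, ?_, ?_⟩
  · intro x y hxy
    by_cases hxa : x = D.a0
    · by_cases hya : y = D.a0
      · rw [hxa, hya]
      · by_cases hyb : y = D.b0
        · rw [hxa, hyb, hφa, hφb] at hxy; exact absurd hxy huv
        · rw [hxa, hφa, hφo y hya hyb] at hxy; exact absurd hxy.symm (hu y)
    · by_cases hxb : x = D.b0
      · by_cases hya : y = D.a0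
        · rw [hxb, hya, hφa, hφb] at hxy; exact absurd hxy.symm huv
        · by_cases hyb : y = D.b0
          · rw [hxb, hyb]
          · rw [hxb, hφb, hφo y hya hyb] at hxy; exact absurd hxy.symm (hv y)
      · rw [hφo x hxa hxb] at hxy
        by_cases hya : y = D.a0
        · rw [hya, hφa] at hxy; exact absurd hxy (hu x)
        · by_cases hyb : y = D.b0
          · rw [hyb, hφb] at hxy; exact absurd hxy (hv x)
          · rw [hφo y hya hyb] at hxy; exact D.ι_inj s hxy
  · intro x y hxy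
    have : Sym2.map φ s(x, y) ∈ H'.G.edgeSet := by
      rw [hext.1]
      by_cases he : s(x, y) = s(D.a0, D.b0)
      · rw [he, h0]; exact Set.mem_insert _ _
      · exact Set.mem_insert_of_mem _ (hsub (h2 _ hxy he))
    exact this
  · intro e he e' he' hlt
    have hne' : e' ≠ s(D.a0, D.b0) := by
      rintro rfl
      by_cases hne : e = s(D.a0, D.b0)
      · rw [hne] at hlt; exact lt_irrefl _ hlt
      · exact lt_asymm hlt (D.hmin e he hne).1
    have m' := h2 e' he' hne'
    rw [(hext.2 _ (hsub m')).1]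
    by_cases hne : e = s(D.a0, D.b0)
    · rw [hne, h0]; exact (hext.2 _ (hsub m')).2
    · have m := h2 e he hne
      rw [(hext.2 _ (hsub m)).1, hl _ m, hl _ m', h1 e he hne, h1 e' he' hne']
      change D.lab _ < D.lab _
      rw [D.lab_eq (D.G_edge.2 ⟨he, hne⟩), D.lab_eq (D.G_edge.2 ⟨he', hne'⟩), Nat.cast_lt]
      have := D.rk_lt (D.G_edge.2 ⟨he, hne⟩) hlt
      omega

theorem exists_saturated [Finite W] : ∃ H : EOGraph V, MinSaturated H D.F ∧
    H.G.edgeSet.ncard ≤ Nat.card ((W × ZMod 3) × (W × ZMod 3)) := by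
  classical
  let Good : EOGraph V → Prop := fun H => ¬ Contains H D.F ∧
    (∀ e ∈ H.G.edgeSet, ∃ z : (W × ZMod 3) × (W × ZMod 3), s(D.j z.1, D.j z.2) = e) ∧
    D.H0.G ≤ H.G ∧ ∀ e ∈ D.H0.G.edgeSet, H.l e = D.H0.l e
  have hsub : ∀ H, Good H → H.G.edgeSet ⊆
      Set.range fun z : (W × ZMod 3) × (W × ZMod 3) => s(D.j z.1, D.j z.2) :=
    fun H hH e he => hH.2.1 e he
  have hfin : ∀ H, Good H → H.G.edgeSet.Finite := fun H hH =>
    (Set.finite_range _).subset (hsub H hH)
  have hbd : ∀ H, Good H → H.G.edgeSet.ncard ≤ Nat.card ((W × ZMod 3) × (W × ZMod 3)) := by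
    intro H hH
    refine (Set.ncard_le_ncard (hsub H hH) (Set.finite_range _)).trans ?_
    rw [← Set.image_univ, ← Set.ncard_univ]
    exact Set.ncard_image_le (Set.toFinite _)
  have h0 : Good D.H0 := by
    refine ⟨D.avoids, ?_, le_rfl, fun _ _ => rfl⟩
    intro e he
    obtain ⟨s, e', _, rfl⟩ := D.mem_HG.1 he
    induction e' using Sym2.ind with
    | _ p q => exact ⟨(D.ι0 s p, D.ι0 s q), rfl⟩
  have hne : {m | ∃ H, Good H ∧ H.G.edgeSet.ncard = m}.Nonempty := ⟨_, D.H0, h0, rfl⟩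
  have hbdd : BddAbove {m | ∃ H, Good H ∧ H.G.edgeSet.ncard = m} :=
    ⟨_, by rintro _ ⟨H, hH, rfl⟩; exact hbd H hH⟩
  obtain ⟨H, hH, hmax⟩ := Nat.sSup_mem hne hbdd
  refine ⟨H, ⟨hH.1, ?_⟩, hbd H hH⟩
  intro u v huv hnadj H' hext
  by_cases hu : ∃ z, D.j z = u
  · by_cases hv : ∃ z, D.j z = v
    · by_contra hcon
      obtain ⟨zu, rfl⟩ := hu
      obtain ⟨zv, rfl⟩ := hv
      have hle : H.G ≤ H'.G := by
        rw [← edgeSet_subset_edgeSet, hext.1]
        exact Set.subset_insert _ _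
      have hG' : Good H' := by
        refine ⟨hcon, ?_, hH.2.2.1.trans hle, ?_⟩
        · intro e he
          rw [hext.1] at he
          rcases he with rfl | he
          · exact ⟨(zu, zv), rfl⟩
          · exact hH.2.1 e he
        · intro e he
          rw [(hext.2 e (edgeSet_mono hH.2.2.1 he)).1, hH.2.2.2 e he]
      have h1 : H'.G.edgeSet.ncard ≤ H.G.edgeSet.ncard := by
        rw [hmax]
        exact le_csSup hbdd ⟨H', hG', rfl⟩
      have hnm : s(D.j zu, D.j zv) ∉ H.G.edgeSet := hnadj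
      rw [hext.1, Set.ncard_insert_of_notMem hnm (hfin H hH)] at h1
      omega
    · obtain ⟨s, hs⟩ := D.exists_avoid u
      exact D.contains_of_avoid hH.2.2.1 hH.2.2.2 huv hext hs (fun w h => hv ⟨_, h⟩)
  · obtain ⟨s, hs⟩ := D.exists_avoid v
    exact D.contains_of_avoid hH.2.2.1 hH.2.2.2 huv hext (fun w h => hu ⟨_, h⟩) hs

end Data

theorem bounded_saturation {W : Type} [Finite W] (F : EOGraph W) (hF : IsolatedMinEdge F) :
    ∃ C n₀ : ℕ, ∀ n, n₀ ≤ n → ∃ H : EOGraph (Fin n), MinSaturated H F ∧ H.G.edgeSet.ncard ≤ C := by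
  obtain ⟨a0, b0, h0, hmin⟩ := hF
  obtain ⟨ord, hord⟩ := exists_injective_nat W
  refine ⟨Nat.card ((W × ZMod 3) × (W × ZMod 3)), Nat.card (W × ZMod 3), fun n hn => ?_⟩
  let j : W × ZMod 3 → Fin n := fun z => Fin.castLE hn (Finite.equivFin _ z)
  have hj : Injective j := (Fin.castLE_injective hn).comp (Finite.equivFin _).injective
  exact Data.exists_saturated ⟨F, a0, b0, h0, hmin, ord, hord, j, hj⟩

end Pool.Agent.Work.MP_5ab958_co
end
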